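import Pool.Agent.helper4.QS.Spec
import Pool.Agent.helper46.CM.CON1

/-!
# Project qs, module TR: the normalised trace
-/

open scoped BigOperators ComplexOrder ComplexConjugate Topology

open Filter

namespace Pool.Agent.QS

open Pool.Agent.helper86.CM

theorem TR_diag {N : ℕ} [NeZero N] (z : Lat 1) (x : Fin 1 → ZMod N) :
    inner ℂ (EuclideanSpace.single x (1 : ℂ)) (TT z (EuclideanSpace.single x (1 : ℂ))) =
      if ((z (Sum.inl 0) : ℤ) : ZMod N) = 0 then
        ee ((qf z : ℝ) / (2 * N)) * ZMod.stdAddChar (x 0 * ((z (Sum.inr 0) : ℤ) : ZMod N))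
      else 0 := by
  rw [EuclideanSpace.inner_single_left, map_one, one_mul]
  show ee ((qf z : ℝ) / (2 * N)) *
      ZMod.stdAddChar (∑ i, ((z (Sum.inr i) : ℤ) : ZMod N) * x i) *
        (EuclideanSpace.single x (1 : ℂ) : St 1 N)
          (x + fun i => ((z (Sum.inl i) : ℤ) : ZMod N)) = _
  rw [Fin.sum_univ_one, mul_comm (((z (Sum.inr 0) : ℤ) : ZMod N)) (x 0)]
  by_cases h : ((z (Sum.inl 0) : ℤ) : ZMod N) = 0
  · have h1 : (x + fun i => ((z (Sum.inl i) : ℤ) : ZMod N)) = x := by
      funext i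
      have : i = 0 := Subsingleton.elim _ _
      subst this
      rw [Pi.add_apply, h, add_zero]
    rw [h1, if_pos h]
    simp
  · have h1 : (x + fun i => ((z (Sum.inl i) : ℤ) : ZMod N)) ≠ x := by
      intro h2
      have h3 := congrFun h2 0
      rw [Pi.add_apply] at h3
      exact h (by simpa using h3)
    rw [if_neg h]
    have h4 : (EuclideanSpace.single x (1 : ℂ) : St 1 N)
        (x + fun i => ((z (Sum.inl i) : ℤ) : ZMod N)) = 0 := by
      simp only [PiLp.single_apply]
      rw [if_neg h1]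
    rw [h4, mul_zero]

theorem TR : TR_stmt := by
  intro N _
  have hN : (N : ℂ) ≠ 0 := Nat.cast_ne_zero.2 (NeZero.ne N)
  have hN0 : (0 : ℝ) < N := Nat.cast_pos.2 (Nat.pos_of_ne_zero (NeZero.ne N))
  let e := Fintype.equivFin (Fin 1 → ZMod N)
  let r : ℂ := ((1 / Real.sqrt N : ℝ) : ℂ)
  have hr : (starRingEnd ℂ) r * r = (N : ℂ)⁻¹ := by
    show (starRingEnd ℂ) ((1 / Real.sqrt N : ℝ) : ℂ) * ((1 / Real.sqrt N : ℝ) : ℂ) = (N : ℂ)⁻¹
    rw [Complex.conj_ofReal, ← Complex.ofReal_mul]
    have h1 : (1 / Real.sqrt N) * (1 / Real.sqrt N) = ((N : ℝ))⁻¹ := by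
      rw [one_div, ← mul_inv, Real.mul_self_sqrt hN0.le]
    rw [h1]
    push_cast
    ring
  let w : Fin (Fintype.card (Fin 1 → ZMod N)) → St 1 N :=
    fun l => r • EuclideanSpace.single (e.symm l) (1 : ℂ)
  have hE : ∀ z : Lat 1, ∑ l, inner ℂ (w l) (TT z (w l)) =
      (N : ℂ)⁻¹ * ∑ x : Fin 1 → ZMod N,
        inner ℂ (EuclideanSpace.single x (1 : ℂ)) (TT z (EuclideanSpace.single x (1 : ℂ))) := by
    intro z
    rw [Finset.mul_sum, ← Equiv.sum_comp e.symm]
    refine Finset.sum_congr rfl (fun l _ => ?_)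
    show inner ℂ (r • EuclideanSpace.single (e.symm l) (1 : ℂ))
      (TT z (r • EuclideanSpace.single (e.symm l) (1 : ℂ))) = _
    rw [map_smul, inner_smul_left, inner_smul_right, ← mul_assoc, hr]
  refine ⟨fun z => ∑ l, inner ℂ (w l) (TT z (w l)), ⟨_, w, fun z => rfl⟩, ?_, ?_⟩
  · show ∑ l, inner ℂ (w l) (TT (0 : Lat 1) (w l)) = 1
    rw [hE]
    have h1 : ∀ x : Fin 1 → ZMod N, inner ℂ (EuclideanSpace.single x (1 : ℂ))
        (TT (0 : Lat 1) (EuclideanSpace.single x (1 : ℂ))) = 1 := by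
      intro x
      rw [CON1_zero, EuclideanSpace.inner_single_left]
      simp
    rw [Finset.sum_congr rfl (fun x _ => h1 x), Finset.sum_const, Finset.card_univ]
    have h2 : Fintype.card (Fin 1 → ZMod N) = N := by
      rw [Fintype.card_fun, Fintype.card_fin, ZMod.card, pow_one]
    rw [h2, nsmul_eq_mul, mul_one]
    exact inv_mul_cancel₀ hN
  · intro z hz
    show ∑ l, inner ℂ (w l) (TT z (w l)) = 0
    rw [hE, Finset.sum_congr rfl (fun x _ => TR_diag z x)]
    by_cases h : ((z (Sum.inl 0) : ℤ) : ZMod N) = 0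
    · by_cases h' : ((z (Sum.inr 0) : ℤ) : ZMod N) = 0
      · exfalso
        apply hz
        rw [ZMod.intCast_zmod_eq_zero_iff_dvd] at h h'
        obtain ⟨a, ha⟩ := h
        obtain ⟨b, hb⟩ := h'
        refine ⟨Sum.elim (fun _ => a) (fun _ => b), ?_⟩
        funext i
        rcases i with i | i
        · have : i = 0 := Subsingleton.elim _ _
          subst this
          rw [Pi.smul_apply, Sum.elim_inl, smul_eq_mul, ha]
        · have : i = 0 := Subsingleton.elim _ _
          subst this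
          rw [Pi.smul_apply, Sum.elim_inr, smul_eq_mul, hb]
      · simp only [h, if_true]
        rw [← Finset.mul_sum]
        have h3 : ∑ x : Fin 1 → ZMod N, (ZMod.stdAddChar
            (x 0 * ((z (Sum.inr 0) : ℤ) : ZMod N)) : ℂ) = 0 := by
          rw [← Equiv.sum_comp (Equiv.funUnique (Fin 1) (ZMod N)).symm]
          have h4 := AddChar.sum_mulShift (((z (Sum.inr 0) : ℤ) : ZMod N))
            (ZMod.isPrimitive_stdAddChar N)
          rw [if_neg h', Nat.cast_zero] at h4
          exact h4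
        rw [h3, mul_zero, mul_zero]
    · simp only [h, if_false]
      rw [Finset.sum_const_zero, mul_zero]

end Pool.Agent.QS
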